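import Pool.Agent.V11244.PlasticGroup

/-! Under PFA no `ℵ₁`-dense subgroup of `ℝ` is plastic. -/

namespace Pool.Agent.Results.MP_d907e7_lc.NoPlasticSubgroup

open Pool.Agent.V11244.PlasticDefs Pool.Agent.V11244.FAxioms

/-- **Theorem.** If the forcing axiom for countable posets and `ℵ₁` dense sets holds, in
particular if PFA holds, then no `ℵ₁`-dense additive subgroup of `ℝ` is plastic. -/
theorem result :
    (MACountable → ∀ G : AddSubgroup ℝ, AlephOneDense (G : Set ℝ) → ¬ Plastic (G : Set ℝ)) ∧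
    (PFA → ∀ G : AddSubgroup ℝ, AlephOneDense (G : Set ℝ) → ¬ Plastic (G : Set ℝ)) :=
  ⟨Pool.Agent.V11244.PlasticGroup.main, fun h => Pool.Agent.V11244.PlasticGroup.main h.maCountable⟩

end Pool.Agent.Results.MP_d907e7_lc.NoPlasticSubgroup
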