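import Pool.Agent.V11244.Plastic

/-! There is (in ZFC) a plastic `ℵ₁`-dense set of reals. -/

namespace Pool.Agent.Results.MP_d907e7_lc.PlasticAlephOneDense

open Pool.Agent.V11244.PlasticDefs

/-- **Theorem (ZFC).** There is an `ℵ₁`-dense subset of `ℝ` which is plastic. -/
theorem result : ∃ X : Set ℝ, AlephOneDense X ∧ Plastic X :=
  ⟨Pool.Agent.V11244.Plastic.X, Pool.Agent.V11244.Plastic.alephOneDense_X,
    Pool.Agent.V11244.Plastic.plastic_X⟩

end Pool.Agent.Results.MP_d907e7_lc.PlasticAlephOneDense
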